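import Mathlib.Analysis.SpecialFunctions.Pow.NNReal
import Mathlib.Tactic

namespace Pool.Agent.Results.MP_c389b3_nt.BoundaryPair

/-- The `(α,β)`-walk with starting values `a₁, a₂`: `w 1 = a₁`, `w 2 = a₂`,
`w (k+2) = α * w (k+1) + β * w k` for `k ≥ 1` (the value at index `0` is junk). -/
def w (α β a₁ a₂ : ℕ) : ℕ → ℕ
  | 0 => 0
  | 1 => a₁
  | 2 => a₂
  | (k + 3) => α * w α β a₁ a₂ (k + 2) + β * w α β a₁ a₂ (k + 1)

/-- The set of indices `k ≥ 1` at which some `(α,β)`-walk with positive starting values is at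
`n`. -/
def reach (p : ℕ × ℕ) (n : ℕ) : Set ℕ :=
  {k | 1 ≤ k ∧ ∃ a₁ a₂ : ℕ, 1 ≤ a₁ ∧ 1 ≤ a₂ ∧ w p.1 p.2 a₁ a₂ k = n}

/-- `s^{α,β}(n)`, the largest index at which some walk with positive starting values is at `n`. -/
noncomputable def s (p : ℕ × ℕ) (n : ℕ) : ℕ := sSup (reach p n)

/-- `S_T(n)`: the pairs of `T` attaining the maximum of `s^{α,β}(n)` over `T`. -/
def S (T : Set (ℕ × ℕ)) (n : ℕ) : Set (ℕ × ℕ) := {p ∈ T | ∀ q ∈ T, s q n ≤ s p n}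

/-- `γ_{α,β} = (α + √(α² + 4β)) / 2`. -/
noncomputable def γ (p : ℕ × ℕ) : ℝ := ((p.1 : ℝ) + Real.sqrt ((p.1 : ℝ) ^ 2 + 4 * p.2)) / 2

/-- `Γ_T`, the least `γ_{α,β}` over `T`. -/
noncomputable def Γ (T : Set (ℕ × ℕ)) : ℝ := sInf (γ '' T)

/-- `R'_T`, the pairs of `T` with `γ_{α,β} < Γ_T²`. -/
noncomputable def R' (T : Set (ℕ × ℕ)) : Set (ℕ × ℕ) := {p ∈ T | γ p < Γ T ^ 2}

/-- A nonempty set of pairs of coprime positive integers. -/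
def Adm (T : Set (ℕ × ℕ)) : Prop :=
  T.Nonempty ∧ ∀ p ∈ T, 1 ≤ p.1 ∧ 1 ≤ p.2 ∧ Nat.Coprime p.1 p.2

/-- The counterexample. -/
def T₀ : Set (ℕ × ℕ) := {(2, 3), (8, 9)}

theorem w_shift (α β a₁ a₂ : ℕ) (m : ℕ) :
    w α β a₁ a₂ (m + 2) = w α β a₂ (α * a₂ + β * a₁) (m + 1) := by
  induction m using Nat.strong_induction_on with
  | _ m ih =>
    match m with
    | 0 => simp [w]
    | 1 => simp [w]
    | (j + 2) =>
      have h1 : w α β a₁ a₂ (j + 2) = w α β a₂ (α * a₂ + β * a₁) (j + 1) := ih j (by omega)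
      have h2 : w α β a₁ a₂ (j + 3) = w α β a₂ (α * a₂ + β * a₁) (j + 2) := ih (j + 1) (by omega)
      have e1 : w α β a₁ a₂ (j + 4) = α * w α β a₁ a₂ (j + 3) + β * w α β a₁ a₂ (j + 2) := rfl
      have e2 : w α β a₂ (α * a₂ + β * a₁) (j + 3) =
          α * w α β a₂ (α * a₂ + β * a₁) (j + 2) + β * w α β a₂ (α * a₂ + β * a₁) (j + 1) := rfl
      show w α β a₁ a₂ (j + 4) = w α β a₂ (α * a₂ + β * a₁) (j + 3)
      rw [e1, e2, h1, h2]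

theorem reach_down {p : ℕ × ℕ} {n m : ℕ} (hp1 : 1 ≤ p.1)
    (h : m + 2 ∈ reach p n) : m + 1 ∈ reach p n := by
  obtain ⟨_, a₁, a₂, h1, h2, h3⟩ := h
  refine ⟨by omega, a₂, p.1 * a₂ + p.2 * a₁, h2, ?_, ?_⟩
  · have : 1 ≤ p.1 * a₂ := Nat.mul_pos hp1 h2
    omega
  · rw [← w_shift]; exact h3

theorem reach_down' {p : ℕ × ℕ} {n m : ℕ} (hp1 : 1 ≤ p.1) :
    ∀ d : ℕ, m + 1 + d ∈ reach p n → m + 1 ∈ reach p n := by
  intro d
  induction d with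
  | zero => intro h; simpa using h
  | succ d ih =>
    intro h
    apply ih
    have e : m + 1 + (d + 1) = (m + d) + 2 := by ring
    rw [e] at h
    have := reach_down hp1 h
    have e2 : m + d + 1 = m + 1 + d := by ring
    rwa [e2] at this

theorem w_lower {α β a₁ a₂ : ℕ} (hα : 1 ≤ α) (hβ : 1 ≤ β) (h1 : 1 ≤ a₁) (h2 : 1 ≤ a₂) :
    ∀ k : ℕ, k + 1 ≤ w α β a₁ a₂ (k + 2) ∧ 1 ≤ w α β a₁ a₂ (k + 1) := by
  intro k
  induction k with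
  | zero => simp [w]; exact ⟨by omega, by omega⟩
  | succ k ih =>
    obtain ⟨ih1, ih2⟩ := ih
    have e : k + 1 + 2 = k + 3 := by ring
    rw [e, w, show k + 1 + 1 = k + 2 by ring]
    have h3 : w α β a₁ a₂ (k + 2) ≤ α * w α β a₁ a₂ (k + 2) := Nat.le_mul_of_pos_left _ hα
    have h4 : w α β a₁ a₂ (k + 1) ≤ β * w α β a₁ a₂ (k + 1) := Nat.le_mul_of_pos_left _ hβ
    exact ⟨by omega, by omega⟩

theorem reach_bdd {p : ℕ × ℕ} (hα : 1 ≤ p.1) (hβ : 1 ≤ p.2) (n : ℕ) : BddAbove (reach p n) := by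
  refine ⟨n + 2, ?_⟩
  rintro k ⟨hk, a₁, a₂, h1, h2, h3⟩
  by_contra hcon
  obtain ⟨j, rfl⟩ : ∃ j, k = j + 2 := ⟨k - 2, by omega⟩
  have := (w_lower hα hβ h1 h2 j).1
  omega

/-- The walk `n_k = w^{8,9}_k(1,1)`. -/
theorem w89 (j : ℕ) : (5 * (w 8 9 1 1 (j + 1) : ℤ) = 9 ^ j + 4 * (-1) ^ j) ∧
    (5 * (w 8 9 1 1 (j + 2) : ℤ) = 9 ^ (j + 1) + 4 * (-1) ^ (j + 1)) := by
  induction j with
  | zero => simp [w]
  | succ j ih =>
    refine ⟨ih.2, ?_⟩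
    have e : j + 1 + 2 = j + 3 := by ring
    rw [e, w]
    push_cast
    have h1 := ih.1
    have h2 := ih.2
    calc 5 * (8 * (w 8 9 1 1 (j + 2) : ℤ) + 9 * (w 8 9 1 1 (j + 1) : ℤ))
        = 8 * (5 * (w 8 9 1 1 (j + 2) : ℤ)) + 9 * (5 * (w 8 9 1 1 (j + 1) : ℤ)) := by ring
      _ = 8 * (9 ^ (j + 1) + 4 * (-1) ^ (j + 1)) + 9 * (9 ^ j + 4 * (-1) ^ j) := by rw [h1, h2]
      _ = 9 ^ (j + 1 + 1) + 4 * (-1) ^ (j + 1 + 1) := by ring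

theorem w23 (b₁ b₂ : ℕ) (j : ℕ) :
    (4 * (w 2 3 b₁ b₂ (j + 1) : ℤ) = 3 ^ j * (b₁ + b₂) + (-1) ^ j * (3 * b₁ - b₂)) ∧
    (4 * (w 2 3 b₁ b₂ (j + 2) : ℤ) = 3 ^ (j + 1) * (b₁ + b₂) + (-1) ^ (j + 1) * (3 * b₁ - b₂)) := by
  induction j with
  | zero => simp [w]; constructor <;> ring
  | succ j ih =>
    refine ⟨ih.2, ?_⟩
    have e : j + 1 + 2 = j + 3 := by ring
    rw [e, w]
    push_cast
    have h1 := ih.1
    have h2 := ih.2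
    calc 4 * (2 * (w 2 3 b₁ b₂ (j + 2) : ℤ) + 3 * (w 2 3 b₁ b₂ (j + 1) : ℤ))
        = 2 * (4 * (w 2 3 b₁ b₂ (j + 2) : ℤ)) + 3 * (4 * (w 2 3 b₁ b₂ (j + 1) : ℤ)) := by ring
      _ = 2 * (3 ^ (j + 1) * (b₁ + b₂) + (-1) ^ (j + 1) * (3 * b₁ - b₂)) +
          3 * (3 ^ j * (b₁ + b₂) + (-1) ^ j * (3 * b₁ - b₂)) := by rw [h1, h2]
      _ = _ := by ring

/-- The key arithmetic fact: for odd `k = 4i + 5`, the number `n_k = w^{8,9}_k(1,1)` is not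
reached at index `k + 1` by any `(2,3)`-walk. -/
theorem not_reach (i : ℕ) : (4 * i + 6) ∉ reach (2, 3) (w 8 9 1 1 (4 * i + 5)) := by
  rintro ⟨_, b₁, b₂, h1, h2, h3⟩
  have hn := (w89 (4 * i + 4)).1
  have hw := (w23 b₁ b₂ (4 * i + 5)).1
  have e1 : 4 * i + 4 + 1 = 4 * i + 5 := by ring
  have e2 : 4 * i + 5 + 1 = 4 * i + 6 := by ring
  rw [e1] at hn
  rw [e2] at hw
  simp only at h3
  rw [h3] at hw
  have hs1 : (-1 : ℤ) ^ (4 * i + 4) = 1 := Even.neg_one_pow ⟨2 * i + 2, by ring⟩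
  have hs2 : (-1 : ℤ) ^ (4 * i + 5) = -1 := Odd.neg_one_pow ⟨2 * i + 2, by ring⟩
  rw [hs1] at hn
  rw [hs2] at hw
  -- x = 3^(4i+3) = 27 * 81^i
  set x : ℤ := 3 ^ (4 * i + 3) with hx
  have hx9 : (9 : ℤ) ^ (4 * i + 4) = 9 * x ^ 2 := by
    rw [hx, ← pow_mul]
    have : (9 : ℤ) = 3 ^ 2 := by norm_num
    rw [this, ← pow_mul, ← pow_add]
    congr 1
    ring
  have hx3 : (3 : ℤ) ^ (4 * i + 5) = 9 * x := by
    rw [hx, show 4 * i + 5 = (4 * i + 3) + 2 by ring, pow_add]; ring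
  rw [hx9] at hn
  rw [hx3] at hw
  have hB1 : (1 : ℤ) ≤ (b₁ : ℤ) := by exact_mod_cast h1
  have hB2 : (1 : ℤ) ≤ (b₂ : ℤ) := by exact_mod_cast h2
  set n : ℤ := (w 8 9 1 1 (4 * i + 5) : ℤ) with hndef
  set B₁ : ℤ := (b₁ : ℤ)
  set B₂ : ℤ := (b₂ : ℤ)
  have hxbig : (27 : ℤ) ≤ x := by
    have : (3 : ℤ) ^ 3 ≤ 3 ^ (4 * i + 3) := pow_le_pow_right₀ (by norm_num) (by omega)
    calc (27 : ℤ) = 3 ^ 3 := by norm_num
      _ ≤ x := this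
  -- 4 (9 x^2 + 4) = 20 n = 5 (9 x U - V)
  have hkey : 9 * x * (4 * x - 5 * (B₁ + B₂)) = -(5 * (3 * B₁ - B₂) + 16) := by
    nlinarith
  set c : ℤ := 5 * (B₁ + B₂) - 4 * x with hc
  have hkey2 : 9 * x * c = 5 * (3 * B₁ - B₂) + 16 := by
    have : 4 * x - 5 * (B₁ + B₂) = -c := by rw [hc]; ring
    rw [this] at hkey
    linarith
  -- bounds: c ≤ 1
  have hc1 : c ≤ 1 := by
    by_contra hcon
    have h4 : 2 ≤ c := by omega
    -- 5 (3B₁ - B₂) < 15 (B₁ + B₂) = 3 (c + 4x)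
    have h5 : 9 * x * c < 3 * (c + 4 * x) + 16 := by
      rw [hkey2, hc]; linarith
    nlinarith
  have hc0 : 0 ≤ c := by
    by_contra hcon
    have h4 : c ≤ -1 := by omega
    have h5 : 9 * x * c > -(c + 4 * x) + 16 := by
      rw [hkey2, hc]; linarith
    nlinarith
  -- x mod 5
  have hxmod : x % 5 = 2 := by
    have : x = 27 * 81 ^ i := by
      rw [hx, pow_add, pow_mul]; norm_num; ring
    rw [this]
    have h81 : (81 : ℤ) ^ i % 5 = 1 := by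
      have := Int.ModEq.pow i (show (81 : ℤ) ≡ 1 [ZMOD 5] by decide)
      rw [one_pow] at this
      exact this
    omega
  omega

theorem gamma23 : γ (2, 3) = 3 := by
  have h : Real.sqrt (((2 : ℕ) : ℝ) ^ 2 + 4 * ((3 : ℕ) : ℝ)) = 4 := by
    rw [show (((2 : ℕ) : ℝ) ^ 2 + 4 * ((3 : ℕ) : ℝ)) = 4 ^ 2 by norm_num]
    exact Real.sqrt_sq (by norm_num)
  simp only [γ]
  rw [h]; norm_num

theorem gamma89 : γ (8, 9) = 9 := by
  have h : Real.sqrt (((8 : ℕ) : ℝ) ^ 2 + 4 * ((9 : ℕ) : ℝ)) = 10 := by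
    rw [show (((8 : ℕ) : ℝ) ^ 2 + 4 * ((9 : ℕ) : ℝ)) = 10 ^ 2 by norm_num]
    exact Real.sqrt_sq (by norm_num)
  simp only [γ]
  rw [h]; norm_num

theorem Gamma_T₀ : Γ T₀ = 3 := by
  have h : γ '' T₀ = {3, 9} := by
    rw [T₀, Set.image_pair, gamma23, gamma89]
  rw [Γ, h, csInf_pair]
  norm_num

theorem adm_T₀ : Adm T₀ := by
  refine ⟨⟨(2, 3), by simp [T₀]⟩, ?_⟩
  intro p hp
  rcases hp with rfl | hp
  · exact ⟨by norm_num, by norm_num, by norm_num⟩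
  · rw [Set.mem_singleton_iff] at hp
    subst hp
    exact ⟨by norm_num, by norm_num, by norm_num⟩

theorem mem_S (i : ℕ) : (8, 9) ∈ S T₀ (w 8 9 1 1 (4 * i + 5)) := by
  set n := w 8 9 1 1 (4 * i + 5) with hn
  have h89 : 4 * i + 5 ≤ s (8, 9) n := by
    apply le_csSup (reach_bdd (by norm_num) (by norm_num) n)
    exact ⟨by omega, 1, 1, le_refl _, le_refl _, rfl⟩
  have h23 : s (2, 3) n ≤ 4 * i + 5 := by
    apply csSup_le'
    intro m hm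
    by_contra hcon
    have : 4 * i + 5 < m := by omega
    obtain ⟨d, hd⟩ : ∃ d, m = (4 * i + 5) + 1 + d := ⟨m - (4 * i + 6), by omega⟩
    rw [hd] at hm
    exact not_reach i (reach_down' (by norm_num) d hm)
  refine ⟨by simp [T₀], ?_⟩
  intro q hq
  rcases hq with rfl | hq
  · exact h23.trans h89
  · rw [Set.mem_singleton_iff] at hq
    subst hq
    exact le_refl _

theorem infinite_S : {n : ℕ | 1 ≤ n ∧ (8, 9) ∈ S T₀ n}.Infinite := by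
  refine Set.infinite_of_injective_forall_mem (f := fun i : ℕ => w 8 9 1 1 (4 * i + 5)) ?_ ?_
  · intro i j hij
    simp only at hij
    have h1 := (w89 (4 * i + 4)).1
    have h2 := (w89 (4 * j + 4)).1
    rw [show 4 * i + 4 + 1 = 4 * i + 5 by ring] at h1
    rw [show 4 * j + 4 + 1 = 4 * j + 5 by ring] at h2
    rw [hij] at h1
    have hs1 : (-1 : ℤ) ^ (4 * i + 4) = 1 := Even.neg_one_pow ⟨2 * i + 2, by ring⟩
    have hs2 : (-1 : ℤ) ^ (4 * j + 4) = 1 := Even.neg_one_pow ⟨2 * j + 2, by ring⟩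
    rw [hs1] at h1
    rw [hs2] at h2
    have h3 : (9 : ℤ) ^ (4 * i + 4) = 9 ^ (4 * j + 4) := by linarith
    have h4 : 4 * i + 4 = 4 * j + 4 :=
      pow_right_injective₀ (show (0 : ℤ) < 9 by norm_num) (by norm_num) h3
    omega
  · intro i
    refine ⟨?_, mem_S i⟩
    exact (w_lower (by norm_num) (by norm_num) (le_refl 1) (le_refl 1) (4 * i + 4)).2

/-- For the two-element set `T₀ = {(2,3), (8,9)}` one has `γ_{8,9} = 9 = Γ²`, so `(8,9) ∉ R'`,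
yet `(8,9) ∈ S_{T₀}(n)` for infinitely many `n`. Hence the proposed characterisation is false. -/
theorem result :
    (Adm T₀ ∧ (8, 9) ∈ T₀ ∧ γ (8, 9) = Γ T₀ ^ 2 ∧ (8, 9) ∉ R' T₀ ∧
      {n : ℕ | 1 ≤ n ∧ (8, 9) ∈ S T₀ n}.Infinite) ∧
    ¬ ∀ T : Set (ℕ × ℕ), Adm T → ∀ p ∈ T, ({n : ℕ | 1 ≤ n ∧ p ∈ S T n}.Infinite ↔ p ∈ R' T) := by
  have hg : γ (8, 9) = Γ T₀ ^ 2 := by rw [gamma89, Gamma_T₀]; norm_num
  have hmem : (8, 9) ∈ T₀ := by simp [T₀]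
  have hR : (8, 9) ∉ R' T₀ := by
    rintro ⟨_, h⟩
    rw [hg] at h
    exact lt_irrefl _ h
  exact ⟨⟨adm_T₀, hmem, hg, hR, infinite_S⟩,
    fun h => hR ((h T₀ adm_T₀ (8, 9) hmem).mp infinite_S)⟩

end Pool.Agent.Results.MP_c389b3_nt.BoundaryPair
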